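import Mathlib
import Pool.Agent.helper76.BQ.TGood

/-!
# Project bq, module T3b: the linear changes of variables
-/

open Matrix Complex

namespace Pool.Agent.helper76.BQ

/-- reduction of `b` acting on residue vectors -/
def T3b_s {g : ℕ} (N : ℕ) (b : Matrix (Fin g) (Fin g) ℤ) (n : Fin g → ZMod (N ^ 2)) :
    Fin g → ZMod (N ^ 2) := (b.map (Int.castRingHom (ZMod (N ^ 2)))) *ᵥ n

theorem T3b_s_comp {g : ℕ} (N : ℕ) (a b : Matrix (Fin g) (Fin g) ℤ) (h : a * b = 1)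
    (n : Fin g → ZMod (N ^ 2)) : T3b_s N a (T3b_s N b n) = n := by
  unfold T3b_s
  rw [Matrix.mulVec_mulVec, ← Matrix.map_mul, h]
  rw [Matrix.map_one _ (map_zero _) (map_one _), Matrix.one_mulVec]

/-- the permutation of residue vectors -/
def T3b_e {g : ℕ} (N : ℕ) (a b : Matrix (Fin g) (Fin g) ℤ) (h : a * b = 1) (h' : b * a = 1) :
    Equiv.Perm (Fin g → ZMod (N ^ 2)) where
  toFun := T3b_s N b
  invFun := T3b_s N a
  left_inv := T3b_s_comp N a b h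
  right_inv := T3b_s_comp N b a h'

/-- the permutation of integral vectors -/
def T3b_z {g : ℕ} (a b : Matrix (Fin g) (Fin g) ℤ) (h : a * b = 1) (h' : b * a = 1) :
    Equiv.Perm (Fin g → ℤ) where
  toFun := fun n => b *ᵥ n
  invFun := fun n => a *ᵥ n
  left_inv := by intro n; simp only [Matrix.mulVec_mulVec, h, Matrix.one_mulVec]
  right_inv := by intro n; simp only [Matrix.mulVec_mulVec, h', Matrix.one_mulVec]

/-- the operator -/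
noncomputable def T3b_rho {g : ℕ} (N : ℕ) (b : Matrix (Fin g) (Fin g) ℤ) :
    Sch g N →ₗ[ℂ] Sch g N where
  toFun φ := fun n => φ (T3b_s N b n)
  map_add' := by intro a b; funext n; rfl
  map_smul' := by intro c a; funext n; rfl

theorem T3b_det {g N : ℕ} (hN : 0 < N) (a b : Matrix (Fin g) (Fin g) ℤ) (h : a * b = 1)
    (h' : b * a = 1) : LinearMap.det (T3b_rho N b) ^ (4 * N ^ 2) = 1 := by
  classical
  have : NeZero (N ^ 2) := ⟨by positivity⟩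
  have h1 : T3b_rho N b = Matrix.toLin' ((T3b_e N a b h h').permMatrix ℂ) := by
    refine LinearMap.ext fun φ => ?_
    rw [Matrix.toLin'_apply, Matrix.permMatrix_mulVec]
    rfl
  rw [h1, LinearMap.det_toLin', Matrix.det_permutation]
  have h2 : (((Equiv.Perm.sign (T3b_e N a b h h') : ℤˣ) : ℤ) : ℂ) ^ 2 = 1 := by
    rcases Int.units_eq_one_or (Equiv.Perm.sign (T3b_e N a b h h')) with h3 | h3 <;> rw [h3] <;> simp
  have h4 : 4 * N ^ 2 = 2 * (2 * N ^ 2) := by ring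
  rw [h4, pow_mul, h2, one_pow]

theorem T3b_red {g : ℕ} (N : ℕ) (b : Matrix (Fin g) (Fin g) ℤ) (n : Fin g → ℤ) :
    T3b_s N b (red N n) = red N (b *ᵥ n) := by
  funext i
  unfold T3b_s red
  simp only [Matrix.mulVec, dotProduct, Matrix.map_apply]
  push_cast
  rfl

theorem T3b_den {g : ℕ} (a b : Matrix (Fin g) (Fin g) ℤ) (Z : Matrix (Fin g) (Fin g) ℂ) :
    den (fromBlocks a 0 0 bᵀ : Matrix (Fin g ⊕ Fin g) (Fin g ⊕ Fin g) ℤ) Z = toC a := by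
  unfold den
  rw [toBlocks_fromBlocks₁₁, toBlocks_fromBlocks₁₂]
  have h0 : toC (0 : Matrix (Fin g) (Fin g) ℤ) = 0 := by
    unfold toC
    simp
  rw [h0]
  simp

theorem T3b_toC_mul {g : ℕ} (a b : Matrix (Fin g) (Fin g) ℤ) : toC (a * b) = toC a * toC b := by
  unfold toC
  rw [Matrix.map_mul]

theorem T3b_toC_one {g : ℕ} : toC (1 : Matrix (Fin g) (Fin g) ℤ) = 1 := by
  unfold toC
  rw [Matrix.map_one _ (map_zero _) (map_one _)]

theorem T3b_inv {g : ℕ} (a b : Matrix (Fin g) (Fin g) ℤ) (h : a * b = 1) :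
    (toC a)⁻¹ = toC b := by
  apply Matrix.inv_eq_right_inv
  rw [← T3b_toC_mul, h, T3b_toC_one]

theorem T3b_act {g : ℕ} (a b : Matrix (Fin g) (Fin g) ℤ) (h : a * b = 1)
    (Z : Matrix (Fin g) (Fin g) ℂ) :
    act (fromBlocks a 0 0 bᵀ : Matrix (Fin g ⊕ Fin g) (Fin g ⊕ Fin g) ℤ) Z =
      (toC b)ᵀ * Z * toC b := by
  unfold act num
  rw [T3b_den, toBlocks_fromBlocks₂₂, toBlocks_fromBlocks₂₁, T3b_inv a b h]
  have h0 : toC (0 : Matrix (Fin g) (Fin g) ℤ) = 0 := by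
    unfold toC
    simp
  rw [h0, smul_zero, add_zero]
  rfl

theorem T3b_ex {g : ℕ} (a b : Matrix (Fin g) (Fin g) ℤ) (Z : Matrix (Fin g) (Fin g) ℂ) :
    ex (fromBlocks a 0 0 bᵀ : Matrix (Fin g ⊕ Fin g) (Fin g ⊕ Fin g) ℤ) Z = 0 := by
  unfold ex
  rw [toBlocks_fromBlocks₁₂]
  have h0 : toC (0 : Matrix (Fin g) (Fin g) ℤ) = 0 := by
    unfold toC
    simp
  rw [h0, mul_zero]

theorem T3b_qf_eq {g : ℕ} (Z : Matrix (Fin g) (Fin g) ℂ) (x : Fin g → ℂ) :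
    qf Z x = x ⬝ᵥ (Z *ᵥ x) := by
  unfold qf
  simp only [dotProduct, Matrix.mulVec, Finset.mul_sum]
  refine Finset.sum_congr rfl fun i _ => Finset.sum_congr rfl fun j _ => ?_
  ring

theorem T3b_pt {g : ℕ} (N : ℕ) (b : Matrix (Fin g) (Fin g) ℤ) (n : Fin g → ℤ) :
    toC b *ᵥ pt N n = pt N (b *ᵥ n) := by
  funext i
  unfold toC pt
  simp only [Matrix.mulVec, dotProduct, Matrix.map_apply, algebraMap_int_eq, eq_intCast]
  push_cast
  rw [Finset.sum_div]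
  refine Finset.sum_congr rfl fun j _ => ?_
  ring

theorem T3b_qf {g : ℕ} (N : ℕ) (b : Matrix (Fin g) (Fin g) ℤ) (Z : Matrix (Fin g) (Fin g) ℂ)
    (n : Fin g → ℤ) : qf ((toC b)ᵀ * Z * toC b) (pt N n) = qf Z (pt N (b *ᵥ n)) := by
  rw [T3b_qf_eq, T3b_qf_eq, ← T3b_pt, ← Matrix.mulVec_mulVec, ← Matrix.mulVec_mulVec,
    Matrix.dotProduct_mulVec, Matrix.vecMul_transpose]

theorem T3b_lin {g : ℕ} (N : ℕ) (b : Matrix (Fin g) (Fin g) ℤ) (ξ : Fin g → ℂ)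
    (n : Fin g → ℤ) : ∑ i, ((toC b)ᵀ *ᵥ ξ) i * pt N n i = ∑ i, ξ i * pt N (b *ᵥ n) i := by
  have h1 : ∑ i, ((toC b)ᵀ *ᵥ ξ) i * pt N n i = ((toC b)ᵀ *ᵥ ξ) ⬝ᵥ pt N n := rfl
  have h2 : ∑ i, ξ i * pt N (b *ᵥ n) i = ξ ⬝ᵥ pt N (b *ᵥ n) := rfl
  rw [h1, h2, ← T3b_pt, Matrix.mulVec_transpose, ← Matrix.dotProduct_mulVec]

theorem T3b_law {g N : ℕ} (a b : Matrix (Fin g) (Fin g) ℤ) (h : a * b = 1) (h' : b * a = 1) :
    Law N (fromBlocks a 0 0 bᵀ) (T3b_rho N b)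
      (fun _ : Matrix (Fin g) (Fin g) ℂ => (1 : ℂ)) := by
  refine ⟨continuousOn_const, fun Z _ => ?_, fun Z _ ξ φ => ?_⟩
  · rw [T3b_den]
    have h1 : (toC a).det = ((a.det : ℤ) : ℂ) := by
      unfold toC
      have h2 : (algebraMap ℤ ℂ) a.det = (((algebraMap ℤ ℂ).mapMatrix a)).det :=
        RingHom.map_det _ _
      have h3 : a.map ⇑(algebraMap ℤ ℂ) = (algebraMap ℤ ℂ).mapMatrix a := rfl
      rw [h3, ← h2]
      simp
    have h4 : a.det * b.det = 1 := by rw [← Matrix.det_mul, h, Matrix.det_one]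
    have h5 : a.det = 1 ∨ a.det = -1 := Int.isUnit_iff.1 (IsUnit.of_mul_eq_one _ h4)
    rw [h1]
    rcases h5 with h5 | h5 <;> rw [h5] <;> norm_num
  · rw [T3b_den, T3b_act a b h, T3b_ex, T3b_inv a b h]
    rw [Matrix.zero_mulVec, dotProduct_zero, mul_zero, neg_zero, Complex.exp_zero, one_mul,
      one_mul]
    unfold Th
    rw [← (T3b_z a b h h').tsum_eq (fun n : Fin g → ℤ => φ (red N n) *
      cexp (-(Real.pi : ℂ) * qf Z (pt N n) + 2 * (Real.pi : ℂ) * I * ∑ i, ξ i * pt N n i))]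
    refine tsum_congr fun n => ?_
    show φ (T3b_s N b (red N n)) * _ = φ (red N (b *ᵥ n)) * cexp (-(Real.pi : ℂ) *
      qf Z (pt N (b *ᵥ n)) + 2 * (Real.pi : ℂ) * I * ∑ i, ξ i * pt N (b *ᵥ n) i)
    rw [T3b_red, T3b_qf, T3b_lin]

theorem T3b_heis {g N : ℕ} (hN : 0 < N) (a b : Matrix (Fin g) (Fin g) ℤ)
    (h' : b * a = 1) (v : (Fin g ⊕ Fin g) → ℤ) :
    T3b_rho N b ∘ₗ Wop N v = Wop N
      ((fromBlocks a 0 0 bᵀ : Matrix (Fin g ⊕ Fin g) (Fin g ⊕ Fin g) ℤ) *ᵥ v) ∘ₗ T3b_rho N b := by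
  have : NeZero (N ^ 2) := ⟨by positivity⟩
  set p : Fin g → ℤ := fun i => v (Sum.inl i) with hp
  set q : Fin g → ℤ := fun i => v (Sum.inr i) with hq
  have hl : ∀ i, ((fromBlocks a 0 0 bᵀ : Matrix (Fin g ⊕ Fin g) (Fin g ⊕ Fin g) ℤ) *ᵥ v)
      (Sum.inl i) = (a *ᵥ p) i := by
    intro i
    rw [Matrix.fromBlocks_mulVec]
    simp [hp, Function.comp_def]
  have hr : ∀ i, ((fromBlocks a 0 0 bᵀ : Matrix (Fin g ⊕ Fin g) (Fin g ⊕ Fin g) ℤ) *ᵥ v)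
      (Sum.inr i) = (bᵀ *ᵥ q) i := by
    intro i
    rw [Matrix.fromBlocks_mulVec]
    simp [hq, Function.comp_def]
  refine LinearMap.ext fun φ => ?_
  funext n
  show cexp (2 * (Real.pi : ℂ) * I *
      (-(∑ i, (v (Sum.inr i) : ℂ) * ((T3b_s N b n i).val : ℂ)) / (N : ℂ) ^ 2
        - (∑ i, (v (Sum.inl i) : ℂ) * (v (Sum.inr i) : ℂ)) / (2 * (N : ℂ) ^ 2))) *
      φ (fun i => T3b_s N b n i + ((v (Sum.inl i) : ℤ) : ZMod (N ^ 2))) =
      cexp (2 * (Real.pi : ℂ) * I *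
      (-(∑ i, ((((fromBlocks a 0 0 bᵀ : Matrix (Fin g ⊕ Fin g) (Fin g ⊕ Fin g) ℤ) *ᵥ v)
        (Sum.inr i) : ℤ) : ℂ) * ((n i).val : ℂ)) / (N : ℂ) ^ 2
        - (∑ i, ((((fromBlocks a 0 0 bᵀ : Matrix (Fin g ⊕ Fin g) (Fin g ⊕ Fin g) ℤ) *ᵥ v)
        (Sum.inl i) : ℤ) : ℂ) * ((((fromBlocks a 0 0 bᵀ :
          Matrix (Fin g ⊕ Fin g) (Fin g ⊕ Fin g) ℤ) *ᵥ v) (Sum.inr i) : ℤ) : ℂ)) /
          (2 * (N : ℂ) ^ 2))) *
      φ (T3b_s N b (fun i => n i + ((((fromBlocks a 0 0 bᵀ :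
          Matrix (Fin g ⊕ Fin g) (Fin g ⊕ Fin g) ℤ) *ᵥ v) (Sum.inl i) : ℤ) : ZMod (N ^ 2))))
  simp only [hl, hr]
  have e0 : T3b_s N b (fun i => n i + (((a *ᵥ p) i : ℤ) : ZMod (N ^ 2))) =
      fun i => T3b_s N b n i + ((v (Sum.inl i) : ℤ) : ZMod (N ^ 2)) := by
    have e01 : (fun i => n i + (((a *ᵥ p) i : ℤ) : ZMod (N ^ 2))) = n + red N (a *ᵥ p) := rfl
    rw [e01]
    have e02 : T3b_s N b (n + red N (a *ᵥ p)) = T3b_s N b n + T3b_s N b (red N (a *ᵥ p)) := by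
      unfold T3b_s
      rw [Matrix.mulVec_add]
    rw [e02, T3b_red, Matrix.mulVec_mulVec, h', Matrix.one_mulVec]
    rfl
  rw [e0]
  congr 1
  have e2 : ∑ i, (((a *ᵥ p) i : ℤ) : ℂ) * (((bᵀ *ᵥ q) i : ℤ) : ℂ) =
      ∑ i, (v (Sum.inl i) : ℂ) * (v (Sum.inr i) : ℂ) := by
    have e21 : (a *ᵥ p) ⬝ᵥ (bᵀ *ᵥ q) = p ⬝ᵥ q := by
      rw [Matrix.dotProduct_mulVec, Matrix.vecMul_transpose, Matrix.mulVec_mulVec, h',
        Matrix.one_mulVec]
    have e22 : (((a *ᵥ p) ⬝ᵥ (bᵀ *ᵥ q) : ℤ) : ℂ) = ((p ⬝ᵥ q : ℤ) : ℂ) := by rw [e21]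
    simp only [dotProduct] at e22
    push_cast at e22
    exact e22
  rw [e2]
  -- the integrality of the difference
  have e3 : ∃ m : ℤ, (∑ i, (v (Sum.inr i) : ℤ) * ((T3b_s N b n i).val : ℤ)) =
      (∑ i, (bᵀ *ᵥ q) i * ((n i).val : ℤ)) + ((N ^ 2 : ℕ) : ℤ) * m := by
    have e31 : ∀ i, ((N ^ 2 : ℕ) : ℤ) ∣ ((T3b_s N b n i).val : ℤ) -
        (b *ᵥ (fun i => ((n i).val : ℤ))) i := by
      intro i
      rw [← ZMod.intCast_eq_intCast_iff_dvd_sub]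
      have e32 : T3b_s N b n = red N (b *ᵥ (fun i => ((n i).val : ℤ))) := by
        rw [← T3b_red]
        congr 1
        funext j
        unfold red
        simp
      have e33 := congrFun e32 i
      unfold red at e33
      rw [← e33]
      simp
    choose m hm using e31
    refine ⟨∑ i, q i * m i, ?_⟩
    have e34 : ∑ i, (bᵀ *ᵥ q) i * ((n i).val : ℤ) =
        ∑ i, q i * (b *ᵥ (fun i => ((n i).val : ℤ))) i := by
      have e35 : (bᵀ *ᵥ q) ⬝ᵥ (fun i => ((n i).val : ℤ)) =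
          q ⬝ᵥ (b *ᵥ (fun i => ((n i).val : ℤ))) := by
        rw [Matrix.mulVec_transpose, ← Matrix.dotProduct_mulVec]
      exact e35
    rw [e34, Finset.mul_sum, ← Finset.sum_add_distrib]
    refine Finset.sum_congr rfl fun i _ => ?_
    have e36 : ((T3b_s N b n i).val : ℤ) = (b *ᵥ (fun i => ((n i).val : ℤ))) i +
        ((N ^ 2 : ℕ) : ℤ) * m i := by
      have := hm i
      linarith
    rw [e36]
    simp only [hq]
    ring
  obtain ⟨m, hm⟩ := e3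
  rw [Complex.exp_eq_exp_iff_exists_int]
  refine ⟨-m, ?_⟩
  have hN0 : (N : ℂ) ≠ 0 := Nat.cast_ne_zero.2 (by omega)
  have e4 : (∑ i, (v (Sum.inr i) : ℂ) * ((T3b_s N b n i).val : ℂ)) =
      (∑ i, (((bᵀ *ᵥ q) i : ℤ) : ℂ) * ((n i).val : ℂ)) + (N : ℂ) ^ 2 * (m : ℂ) := by
    have := congrArg (Int.cast : ℤ → ℂ) hm
    push_cast at this
    exact this
  rw [e4]
  push_cast
  field_simp
  ring

/-- T3b: `ρ φ = φ ∘ a⁻¹`, `J = 1` -/
theorem good_U {g : ℕ} {N : ℕ} (hN : 0 < N) (a b : Matrix (Fin g) (Fin g) ℤ) (h : a * b = 1) :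
    Good N (fromBlocks a 0 0 bᵀ) := by
  have h' : b * a = 1 := mul_eq_one_comm.1 h
  refine ⟨⟨?_, ?_, ?_⟩, T3b_rho N b, fun _ => 1, T3b_law a b h h', T3b_det hN a b h h',
    T3b_heis hN a b h'⟩
  · rw [toBlocks_fromBlocks₁₁, toBlocks_fromBlocks₁₂, toBlocks_fromBlocks₂₁,
      toBlocks_fromBlocks₂₂, ← Matrix.transpose_mul, h']
    simp
  · rw [toBlocks_fromBlocks₁₁, toBlocks_fromBlocks₂₁]
    simp
  · rw [toBlocks_fromBlocks₁₂, toBlocks_fromBlocks₂₂]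
    simp

end Pool.Agent.helper76.BQ
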